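import Mathlib

/-!
# Ergodic backward shifts on nuclear coechelon spaces are sequentially hypercyclic

Let `k_p(V)` be a Köthe coechelon space on which the backward shift `B` is continuous.  If `k_p(V)`
is nuclear and `B` is topologically ergodic, then `B` is sequentially hypercyclic.

* Step A (`quot_tendsto`): nuclearity gives for every `m` an `n ≥ m` with `v n j / v m j → 0`.
* Step B (`weights_tendsto`): together with ergodicity some weight `v m` tends to zero; otherwise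
  there are arbitrarily long windows on which all `v m` with small `m` are at least `1`, and a
  continuous seminorm which is at least the modulus of the coordinates in the windows.
* Step C (`seqHyp_of_tendsto`): if `v m → 0`, a sequentially hypercyclic vector is constructed in
  the step of `v m`.
-/

set_option autoImplicit false

namespace Pool.Agent.Results.MP_b30f08_an.NuclearErgodic

open Filter Topology

universe u

/-! ## The definitions -/

/-- A sequence of nonnegative reals lies in `ℓ_p` (for `p ≠ 0`), resp. in `c_0` (for `p = 0`). -/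
def SMem (p : ℝ) (a : ℕ → ℝ) : Prop :=
  if p = 0 then Tendsto a atTop (𝓝 0) else Summable fun j => a j ^ p

/-- The `ℓ_p`-norm (for `p ≠ 0`), resp. the sup norm (for `p = 0`) of a sequence of nonnegative
reals. -/
noncomputable def sNorm (p : ℝ) (a : ℕ → ℝ) : ℝ :=
  if p = 0 then ⨆ j, a j else (∑' j, a j ^ p) ^ (1 / p)

/-- The data of a Köthe coechelon space: `p ∈ {0} ∪ [1, ∞)` and a decreasing sequence of strictly
positive weights. -/
structure Kothe where
  /-- the exponent, `0` stands for `c_0` -/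
  p : ℝ
  hp : p = 0 ∨ 1 ≤ p
  /-- the weights -/
  v : ℕ → ℕ → ℝ
  pos : ∀ m j, 0 < v m j
  anti : ∀ m j, v (m + 1) j ≤ v m j

section general

variable {𝕜 : Type u} [RCLike 𝕜]

/-- `x` is in the step `ℓ_p(w)`, resp. `c_0(w)`. -/
def StepMem (p : ℝ) (w : ℕ → ℝ) (x : ℕ → 𝕜) : Prop := SMem p fun j => ‖x j‖ * w j

/-- The norm of the step `ℓ_p(w)`, resp. `c_0(w)`. -/
noncomputable def stepNorm (p : ℝ) (w : ℕ → ℝ) (x : ℕ → 𝕜) : ℝ := sNorm p fun j => ‖x j‖ * w j

end general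

/-! ## Sequences of nonnegative reals -/

lemma sMem_mono {p : ℝ} (hp : p = 0 ∨ 1 ≤ p) {a b : ℕ → ℝ} {c : ℝ} (hc : 0 ≤ c)
    (ha : ∀ j, 0 ≤ a j) (hb : ∀ j, 0 ≤ b j) (h : ∀ j, b j ≤ c * a j) (hm : SMem p a) :
    SMem p b ∧ sNorm p b ≤ c * sNorm p a := by
  rcases hp with rfl | hp
  · simp only [SMem, sNorm, if_true] at hm ⊢
    have h1 : Tendsto b atTop (𝓝 0) := by
      refine squeeze_zero hb h ?_
      simpa using hm.const_mul c
    refine ⟨h1, ?_⟩
    have hbd : BddAbove (Set.range a) := hm.bddAbove_range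
    refine ciSup_le fun j => (h j).trans ?_
    exact mul_le_mul_of_nonneg_left (le_ciSup hbd j) hc
  · have hp0 : p ≠ 0 := by linarith
    have hp1 : 0 < p := by linarith
    simp only [SMem, sNorm, if_neg hp0] at hm ⊢
    have h2 : ∀ j, b j ^ p ≤ c ^ p * a j ^ p := fun j => by
      rw [← Real.mul_rpow hc (ha j)]
      exact Real.rpow_le_rpow (hb j) (h j) hp1.le
    have hs : Summable fun j => b j ^ p :=
      Summable.of_nonneg_of_le (fun j => Real.rpow_nonneg (hb j) _) h2 (hm.mul_left _)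
    refine ⟨hs, ?_⟩
    have h3 : ∑' j, b j ^ p ≤ c ^ p * ∑' j, a j ^ p := by
      rw [← tsum_mul_left]
      exact hs.tsum_le_tsum h2 (hm.mul_left _)
    have h4 : 0 ≤ ∑' j, a j ^ p := tsum_nonneg fun j => Real.rpow_nonneg (ha j) _
    calc (∑' j, b j ^ p) ^ (1 / p) ≤ (c ^ p * ∑' j, a j ^ p) ^ (1 / p) :=
          Real.rpow_le_rpow (tsum_nonneg fun j => Real.rpow_nonneg (hb j) _) h3 (by positivity)
      _ = c * (∑' j, a j ^ p) ^ (1 / p) := by
          rw [Real.mul_rpow (Real.rpow_nonneg hc _) h4, ← Real.rpow_mul hc]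
          rw [mul_one_div_cancel hp0, Real.rpow_one]

lemma sMem_add {p : ℝ} (hp : p = 0 ∨ 1 ≤ p) {a b : ℕ → ℝ}
    (ha : ∀ j, 0 ≤ a j) (hb : ∀ j, 0 ≤ b j) (hma : SMem p a) (hmb : SMem p b) :
    SMem p (fun j => a j + b j) ∧ sNorm p (fun j => a j + b j) ≤ sNorm p a + sNorm p b := by
  rcases hp with rfl | hp
  · simp only [SMem, sNorm, if_true] at hma hmb ⊢
    refine ⟨by simpa using hma.add hmb, ?_⟩
    refine ciSup_le fun j => ?_
    exact add_le_add (le_ciSup hma.bddAbove_range j) (le_ciSup hmb.bddAbove_range j)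
  · have hp0 : p ≠ 0 := by linarith
    simp only [SMem, sNorm, if_neg hp0] at hma hmb ⊢
    exact Real.Lp_add_le_tsum_of_nonneg hp ha hb hma hmb

lemma le_sNorm {p : ℝ} (hp : p = 0 ∨ 1 ≤ p) {a : ℕ → ℝ} (ha : ∀ j, 0 ≤ a j) (hm : SMem p a)
    (j : ℕ) : a j ≤ sNorm p a := by
  rcases hp with rfl | hp
  · simp only [SMem, sNorm, if_true] at hm ⊢
    exact le_ciSup hm.bddAbove_range j
  · have hp0 : p ≠ 0 := by linarith
    have hp1 : 0 < p := by linarith
    simp only [SMem, sNorm, if_neg hp0] at hm ⊢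
    have h1 : a j ^ p ≤ ∑' j, a j ^ p :=
      hm.le_tsum j fun i _ => Real.rpow_nonneg (ha i) _
    calc a j = (a j ^ p) ^ (1 / p) := by
          rw [← Real.rpow_mul (ha j), mul_one_div_cancel hp0, Real.rpow_one]
      _ ≤ _ := Real.rpow_le_rpow (Real.rpow_nonneg (ha j) _) h1 (by positivity)

lemma sNorm_nonneg {p : ℝ} (hp : p = 0 ∨ 1 ≤ p) {a : ℕ → ℝ} (ha : ∀ j, 0 ≤ a j)
    (hm : SMem p a) : 0 ≤ sNorm p a := (ha 0).trans (le_sNorm hp ha hm 0)

lemma sMem_of_summable {p : ℝ} (hp : p = 0 ∨ 1 ≤ p) {a : ℕ → ℝ} (ha : ∀ j, 0 ≤ a j)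
    (hs : Summable a) : SMem p a ∧ sNorm p a ≤ ∑' j, a j := by
  have hle : ∀ j, a j ≤ ∑' j, a j := fun j => hs.le_tsum j fun i _ => ha i
  rcases hp with rfl | hp
  · simp only [SMem, sNorm, if_true]
    exact ⟨hs.tendsto_atTop_zero, ciSup_le hle⟩
  · have hp0 : p ≠ 0 := by linarith
    have hp1 : 0 < p := by linarith
    simp only [SMem, sNorm, if_neg hp0]
    set S := ∑' j, a j with hS
    have hS0 : 0 ≤ S := tsum_nonneg ha
    have h2 : ∀ j, a j ^ p ≤ S ^ (p - 1) * a j := fun j => by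
      rcases (ha j).eq_or_lt with h0 | h0
      · rw [← h0, Real.zero_rpow hp0, mul_zero]
      · have : a j ^ p = a j ^ (p - 1) * a j := by
          rw [Real.rpow_sub_one h0.ne', div_mul_cancel₀ _ h0.ne']
        rw [this]
        exact mul_le_mul_of_nonneg_right
          (Real.rpow_le_rpow (ha j) (hle j) (by linarith)) (ha j)
    have hs2 : Summable fun j => a j ^ p :=
      Summable.of_nonneg_of_le (fun j => Real.rpow_nonneg (ha j) _) h2 (hs.mul_left _)
    refine ⟨hs2, ?_⟩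
    have h3 : ∑' j, a j ^ p ≤ S ^ (p - 1) * S := by
      rw [hS, ← tsum_mul_left, ← hS]
      exact hs2.tsum_le_tsum h2 (hs.mul_left _)
    rcases hS0.eq_or_lt with h0 | h0
    · rw [← h0, mul_zero] at h3
      have h4 : ∑' j, a j ^ p = 0 :=
        le_antisymm h3 (tsum_nonneg fun j => Real.rpow_nonneg (ha j) _)
      rw [h4, Real.zero_rpow (by positivity)]
      exact hS0
    · have h4 : S ^ (p - 1) * S = S ^ p := by
        rw [Real.rpow_sub_one h0.ne', div_mul_cancel₀ _ h0.ne']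
      rw [h4] at h3
      calc (∑' j, a j ^ p) ^ (1 / p) ≤ (S ^ p) ^ (1 / p) :=
            Real.rpow_le_rpow (tsum_nonneg fun j => Real.rpow_nonneg (ha j) _) h3 (by positivity)
        _ = S := by rw [← Real.rpow_mul hS0, mul_one_div_cancel hp0, Real.rpow_one]

/-- The tails of a sequence in `ℓ_p` or `c_0` tend to zero. -/
lemma tail_small {p : ℝ} (hp : p = 0 ∨ 1 ≤ p) {a : ℕ → ℝ} (ha : ∀ j, 0 ≤ a j) (hm : SMem p a)
    {ε : ℝ} (hε : 0 < ε) : ∃ N, sNorm p (fun j => if j < N then 0 else a j) ≤ ε := by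
  rcases hp with rfl | hp
  · simp only [SMem, sNorm, if_true] at hm ⊢
    obtain ⟨N, hN⟩ := (hm.eventually (ge_mem_nhds hε)).exists_forall_of_atTop
    refine ⟨N, ciSup_le fun j => ?_⟩
    split_ifs with h
    · exact hε.le
    · exact hN j (not_lt.1 h)
  · have hp0 : p ≠ 0 := by linarith
    have hp1 : 0 < p := by linarith
    simp only [SMem, sNorm, if_neg hp0] at hm ⊢
    have h1 := tendsto_sum_nat_add fun j => a j ^ p
    have h2 := h1.eventually (ge_mem_nhds (Real.rpow_pos_of_pos hε p))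
    obtain ⟨N, hN⟩ := h2.exists
    refine ⟨N, ?_⟩
    have h3 : ∑' j, (if j < N then 0 else a j) ^ p = ∑' k, a (k + N) ^ p := by
      have hs : Summable fun j => (if j < N then 0 else a j) ^ p := by
        refine Summable.of_nonneg_of_le (fun j => ?_) (fun j => ?_) hm
        · split_ifs
          · rw [Real.zero_rpow hp0]
          · exact Real.rpow_nonneg (ha j) _
        · split_ifs
          · rw [Real.zero_rpow hp0]; exact Real.rpow_nonneg (ha j) _
          · exact le_rfl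
      rw [← hs.sum_add_tsum_nat_add N, Finset.sum_eq_zero, zero_add]
      · refine tsum_congr fun k => ?_
        rw [if_neg (by omega)]
      · intro j hj
        rw [if_pos (Finset.mem_range.1 hj), Real.zero_rpow hp0]
    rw [h3]
    calc (∑' k, a (k + N) ^ p) ^ (1 / p) ≤ (ε ^ p) ^ (1 / p) :=
          Real.rpow_le_rpow (tsum_nonneg fun j => Real.rpow_nonneg (ha _) _) hN (by positivity)
      _ = ε := by rw [← Real.rpow_mul hε.le, mul_one_div_cancel hp0, Real.rpow_one]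

/-! ## The steps -/

section steps

variable {𝕜 : Type u} [RCLike 𝕜]

lemma step_mono {p : ℝ} (hp : p = 0 ∨ 1 ≤ p) {w w' : ℕ → ℝ} (hw : ∀ j, 0 ≤ w j)
    (hw' : ∀ j, 0 ≤ w' j) {x y : ℕ → 𝕜} {c : ℝ} (hc : 0 ≤ c)
    (h : ∀ j, ‖y j‖ * w' j ≤ c * (‖x j‖ * w j)) (hm : StepMem p w x) :
    StepMem p w' y ∧ stepNorm p w' y ≤ c * stepNorm p w x :=
  sMem_mono hp hc (fun j => mul_nonneg (norm_nonneg _) (hw j))
    (fun j => mul_nonneg (norm_nonneg _) (hw' j)) h hm

lemma step_add {p : ℝ} (hp : p = 0 ∨ 1 ≤ p) {w : ℕ → ℝ} (hw : ∀ j, 0 ≤ w j)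
    {x y : ℕ → 𝕜} (hx : StepMem p w x) (hy : StepMem p w y) :
    StepMem p w (x + y) ∧ stepNorm p w (x + y) ≤ stepNorm p w x + stepNorm p w y := by
  have hx0 : ∀ j, 0 ≤ ‖x j‖ * w j := fun j => mul_nonneg (norm_nonneg _) (hw j)
  have hy0 : ∀ j, 0 ≤ ‖y j‖ * w j := fun j => mul_nonneg (norm_nonneg _) (hw j)
  obtain ⟨h1, h2⟩ := sMem_add hp hx0 hy0 hx hy
  obtain ⟨h3, h4⟩ := sMem_mono (b := fun j => ‖(x + y) j‖ * w j) (c := 1) hp zero_le_one
    (fun j => add_nonneg (hx0 j) (hy0 j)) (fun j => mul_nonneg (norm_nonneg _) (hw j))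
    (fun j => by
      rw [one_mul, ← add_mul]
      exact mul_le_mul_of_nonneg_right (norm_add_le _ _) (hw j)) h1
  exact ⟨h3, by rw [one_mul] at h4; exact h4.trans h2⟩

lemma step_smul {p : ℝ} (hp : p = 0 ∨ 1 ≤ p) {w : ℕ → ℝ} (hw : ∀ j, 0 ≤ w j) (c : 𝕜)
    {x : ℕ → 𝕜} (hx : StepMem p w x) : StepMem p w (c • x) ∧
      stepNorm p w (c • x) ≤ ‖c‖ * stepNorm p w x :=
  step_mono hp hw hw (norm_nonneg c) (fun j => by
    rw [Pi.smul_apply, norm_smul, mul_assoc]) hx

lemma step_zero {p : ℝ} (hp : p = 0 ∨ 1 ≤ p) (w : ℕ → ℝ) :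
    StepMem p w (0 : ℕ → 𝕜) ∧ stepNorm p w (0 : ℕ → 𝕜) = 0 := by
  rcases hp with rfl | hp
  · simp [StepMem, stepNorm, SMem, sNorm]
  · have hp0 : p ≠ 0 := by linarith
    simp [StepMem, stepNorm, SMem, sNorm, hp0, Real.zero_rpow]

lemma step_smul_eq {p : ℝ} (hp : p = 0 ∨ 1 ≤ p) {w : ℕ → ℝ} (hw : ∀ j, 0 ≤ w j) (c : 𝕜)
    {x : ℕ → 𝕜} (hx : StepMem p w x) : stepNorm p w (c • x) = ‖c‖ * stepNorm p w x := by
  rcases eq_or_ne c 0 with rfl | hc
  · rw [zero_smul, (step_zero hp w).2, norm_zero, zero_mul]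
  · refine le_antisymm (step_smul hp hw c hx).2 ?_
    have h1 := (step_smul hp hw c⁻¹ (step_smul hp hw c hx).1).2
    rw [smul_smul, inv_mul_cancel₀ hc, one_smul, norm_inv] at h1
    have hc' : 0 < ‖c‖ := norm_pos_iff.2 hc
    calc ‖c‖ * stepNorm p w x ≤ ‖c‖ * (‖c‖⁻¹ * stepNorm p w (c • x)) :=
          mul_le_mul_of_nonneg_left h1 hc'.le
      _ = _ := by rw [← mul_assoc, mul_inv_cancel₀ hc'.ne', one_mul]

lemma le_step {p : ℝ} (hp : p = 0 ∨ 1 ≤ p) {w : ℕ → ℝ} (hw : ∀ j, 0 ≤ w j)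
    {x : ℕ → 𝕜} (hx : StepMem p w x) (j : ℕ) : ‖x j‖ * w j ≤ stepNorm p w x :=
  le_sNorm hp (fun j => mul_nonneg (norm_nonneg _) (hw j)) hx j

lemma step_nonneg {p : ℝ} (hp : p = 0 ∨ 1 ≤ p) {w : ℕ → ℝ} (hw : ∀ j, 0 ≤ w j)
    {x : ℕ → 𝕜} (hx : StepMem p w x) : 0 ≤ stepNorm p w x :=
  sNorm_nonneg hp (fun j => mul_nonneg (norm_nonneg _) (hw j)) hx

end steps

lemma Kothe.antitone (D : Kothe) (j : ℕ) {m n : ℕ} (h : m ≤ n) : D.v n j ≤ D.v m j :=
  antitone_nat_of_succ_le (f := fun m => D.v m j) (fun m => D.anti m j) h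

section space

variable (𝕜 : Type u) [RCLike 𝕜] (D : Kothe)

/-- The union of the steps, as a vector space of sequences. -/
def kSub : Submodule 𝕜 (ℕ → 𝕜) where
  carrier := {x | ∃ m, StepMem D.p (D.v m) x}
  add_mem' := by
    rintro x y ⟨m, hm⟩ ⟨n, hn⟩
    refine ⟨max m n, ?_⟩
    have h1 := (step_mono (c := 1) (y := x) D.hp (fun j => (D.pos m j).le)
      (fun j => (D.pos (max m n) j).le) zero_le_one (fun j => by
        rw [one_mul]
        exact mul_le_mul_of_nonneg_left (D.antitone j (le_max_left m n)) (norm_nonneg _)) hm).1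
    have h2 := (step_mono (c := 1) (y := y) D.hp (fun j => (D.pos n j).le)
      (fun j => (D.pos (max m n) j).le) zero_le_one (fun j => by
        rw [one_mul]
        exact mul_le_mul_of_nonneg_left (D.antitone j (le_max_right m n)) (norm_nonneg _)) hn).1
    exact (step_add D.hp (fun j => (D.pos _ j).le) h1 h2).1
  zero_mem' := ⟨0, (step_zero D.hp _).1⟩
  smul_mem' := by
    rintro c x ⟨m, hm⟩
    exact ⟨m, (step_smul D.hp (fun j => (D.pos m j).le) c hm).1⟩

/-- The Köthe coechelon space `k_p(V)`. -/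
def KSpace : Type u := ↥(kSub 𝕜 D)

instance : AddCommGroup (KSpace 𝕜 D) := inferInstanceAs (AddCommGroup ↥(kSub 𝕜 D))

instance : Module 𝕜 (KSpace 𝕜 D) := inferInstanceAs (Module 𝕜 ↥(kSub 𝕜 D))

variable {𝕜 D}

/-- The sequence underlying an element of the coechelon space. -/
def KSpace.seq (x : KSpace 𝕜 D) : ℕ → 𝕜 := Subtype.val (p := fun x => x ∈ kSub 𝕜 D) x

lemma KSpace.mem (x : KSpace 𝕜 D) : ∃ m, StepMem D.p (D.v m) x.seq :=
  Subtype.property (p := fun x => x ∈ kSub 𝕜 D) x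

/-- The element with a given underlying sequence. -/
def KSpace.mk (x : ℕ → 𝕜) (h : ∃ m, StepMem D.p (D.v m) x) : KSpace 𝕜 D :=
  Subtype.mk (p := fun x => x ∈ kSub 𝕜 D) x h

@[simp] lemma KSpace.seq_mk (x : ℕ → 𝕜) (h : ∃ m, StepMem D.p (D.v m) x) :
    (KSpace.mk x h : KSpace 𝕜 D).seq = x := rfl

@[simp] lemma KSpace.seq_add (x y : KSpace 𝕜 D) : (x + y).seq = x.seq + y.seq := rfl

@[simp] lemma KSpace.seq_sub (x y : KSpace 𝕜 D) : (x - y).seq = x.seq - y.seq := rfl

@[simp] lemma KSpace.seq_smul (c : 𝕜) (x : KSpace 𝕜 D) : (c • x).seq = c • x.seq := rfl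

@[simp] lemma KSpace.seq_zero : (0 : KSpace 𝕜 D).seq = 0 := rfl

lemma KSpace.ext {x y : KSpace 𝕜 D} (h : x.seq = y.seq) : x = y := Subtype.ext h

variable (𝕜 D)

/-- The seminorms on `k_p(V)` whose restrictions to all steps are continuous. -/
def Adm : Type u :=
  {P : Seminorm 𝕜 (KSpace 𝕜 D) // ∀ m, ∃ C : ℝ, ∀ x : KSpace 𝕜 D,
    StepMem D.p (D.v m) x.seq → P x ≤ C * stepNorm D.p (D.v m) x.seq}

instance : Nonempty (Adm 𝕜 D) := ⟨⟨0, fun _ => ⟨0, fun x _ => by simp⟩⟩⟩

/-- The family of the seminorms whose restrictions to all steps are continuous. -/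
def admFamily : SeminormFamily 𝕜 (KSpace 𝕜 D) (Adm 𝕜 D) := fun P => P.1

/-- The topology of the locally convex inductive limit: it is the locally convex topology defined by
all seminorms whose restrictions to all steps are continuous. -/
instance : TopologicalSpace (KSpace 𝕜 D) := (admFamily 𝕜 D).moduleFilterBasis.topology

lemma withSeminorms : WithSeminorms (admFamily 𝕜 D) := ⟨rfl⟩

/-- The condition on the weights which says that the backward shift is continuous. -/
def ShiftCond : Prop := ∀ m, ∃ n, m ≤ n ∧ ∃ C : ℝ, 0 < C ∧ ∀ j, D.v n j ≤ C * D.v m (j + 1)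

variable {D}

lemma shift_mem (hB : ShiftCond D) (x : KSpace 𝕜 D) :
    ∃ m, StepMem D.p (D.v m) fun j => x.seq (j + 1) := by
  obtain ⟨m, hm⟩ := x.mem
  obtain ⟨n, -, C, hC, h⟩ := hB m
  refine ⟨n, ?_⟩
  have h1 : StepMem D.p (fun j => D.v m (j + 1)) fun j => x.seq (j + 1) := by
    unfold StepMem SMem at hm ⊢
    split_ifs at hm ⊢ with h0
    · exact hm.comp (tendsto_add_atTop_nat 1)
    · exact (summable_nat_add_iff 1).2 hm
  exact (step_mono D.hp (fun j => (D.pos m (j + 1)).le) (fun j => (D.pos n j).le) hC.le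
    (fun j => by
      calc ‖x.seq (j + 1)‖ * D.v n j ≤ ‖x.seq (j + 1)‖ * (C * D.v m (j + 1)) :=
            mul_le_mul_of_nonneg_left (h j) (norm_nonneg _)
        _ = _ := by ring) h1).1

/-- The backward shift of `k_p(V)`. -/
def bshift (hB : ShiftCond D) : KSpace 𝕜 D →ₗ[𝕜] KSpace 𝕜 D where
  toFun x := KSpace.mk (fun j => x.seq (j + 1)) (shift_mem 𝕜 hB x)
  map_add' _ _ := rfl
  map_smul' _ _ := rfl

end space

/-! ## Nuclear spaces and linear dynamics -/

/-- A locally convex space `E` is nuclear: for every continuous seminorm `P` there is a continuous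
seminorm `Q` such that the canonical map from `E` with the seminorm `Q` to the completion `F` of `E`
with the seminorm `P` is nuclear, i.e. it is `x ↦ ∑ i, lam i * f i x • y i` with an absolutely
summable sequence `lam`, linear functionals `f i` with `|f i| ≤ Q` and `y i` in the unit ball of
`F`. -/
def IsNuclear (𝕜 E : Type u) [RCLike 𝕜] [AddCommGroup E] [Module 𝕜 E] [TopologicalSpace E] :
    Prop :=
  ∀ P : Seminorm 𝕜 E, Continuous P → ∃ Q : Seminorm 𝕜 E, Continuous Q ∧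
    ∃ (F : Type u) (_ : NormedAddCommGroup F) (_ : NormedSpace 𝕜 F) (π : E →ₗ[𝕜] F),
      CompleteSpace F ∧ DenseRange π ∧ (∀ x, ‖π x‖ = P x) ∧
      ∃ (lam : ℕ → 𝕜) (f : ℕ → E →ₗ[𝕜] 𝕜) (y : ℕ → F), (Summable fun i => ‖lam i‖) ∧
        (∀ i x, ‖f i x‖ ≤ Q x) ∧ (∀ i, ‖y i‖ ≤ 1) ∧
        ∀ x, HasSum (fun i => (lam i * f i x) • y i) (π x)

/-- The set `N_T(U, W)` of the `n ≥ 1` such that `T ^ n (U)` meets `W`. -/
def hitSet {E : Type u} (T : E → E) (U W : Set E) : Set ℕ :=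
  {n | 1 ≤ n ∧ (T^[n] '' U ∩ W).Nonempty}

/-- A set of positive integers with bounded gaps. -/
def Syndetic (N : Set ℕ) : Prop := ∃ q, ∀ n, 1 ≤ n → ∃ k, n ≤ k ∧ k ≤ n + q ∧ k ∈ N

/-- All sets `N_T(U, W)` with `U`, `W` open and nonempty are syndetic. -/
def TopErgodic {E : Type u} [TopologicalSpace E] (T : E → E) : Prop :=
  ∀ U W : Set E, IsOpen U → IsOpen W → U.Nonempty → W.Nonempty → Syndetic (hitSet T U W)

/-- Some orbit is sequentially dense. -/
def SeqHypercyclic {E : Type u} [TopologicalSpace E] (T : E → E) : Prop :=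
  ∃ x, ∀ y, ∃ k : ℕ → ℕ, Tendsto (fun i => T^[k i] x) atTop (𝓝 y)

/-! ## Seminorms on the coechelon space -/

section semi

variable {𝕜 : Type u} [RCLike 𝕜] {D : Kothe}

lemma step_of_le {u : ℕ → ℝ} (hu0 : ∀ j, 0 ≤ u j) (hu : ∀ m, ∃ c : ℝ, 0 < c ∧
    ∀ j, u j ≤ c * D.v m j) (x : KSpace 𝕜 D) : StepMem D.p u x.seq := by
  obtain ⟨m, hm⟩ := x.mem
  obtain ⟨c, hc, h⟩ := hu m
  exact (step_mono D.hp (fun j => (D.pos m j).le) hu0 hc.le (fun j => by
      calc ‖x.seq j‖ * u j ≤ ‖x.seq j‖ * (c * D.v m j) :=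
            mul_le_mul_of_nonneg_left (h j) (norm_nonneg _)
        _ = _ := by ring) hm).1

/-- The seminorm of `ℓ_p(u)` on the coechelon space, for a weight `u` dominated by all `v m`. -/
noncomputable def uSemi (u : ℕ → ℝ) (hu0 : ∀ j, 0 ≤ u j) (hu : ∀ m, ∃ c : ℝ, 0 < c ∧
    ∀ j, u j ≤ c * D.v m j) : Seminorm 𝕜 (KSpace 𝕜 D) :=
  Seminorm.of (fun x => stepNorm D.p u x.seq)
    (fun x y => (step_add D.hp hu0 (step_of_le hu0 hu x) (step_of_le hu0 hu y)).2)
    (fun c x => step_smul_eq D.hp hu0 c (step_of_le hu0 hu x))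

lemma uSemi_apply (u : ℕ → ℝ) (hu0 : ∀ j, 0 ≤ u j) (hu : ∀ m, ∃ c : ℝ, 0 < c ∧
    ∀ j, u j ≤ c * D.v m j) (x : KSpace 𝕜 D) : uSemi u hu0 hu x = stepNorm D.p u x.seq := rfl

lemma uSemi_adm (u : ℕ → ℝ) (hu0 : ∀ j, 0 ≤ u j) (hu : ∀ m, ∃ c : ℝ, 0 < c ∧
    ∀ j, u j ≤ c * D.v m j) (m : ℕ) : ∃ C : ℝ, ∀ x : KSpace 𝕜 D,
    StepMem D.p (D.v m) x.seq → uSemi u hu0 hu x ≤ C * stepNorm D.p (D.v m) x.seq := by
  obtain ⟨c, hc, h⟩ := hu m
  refine ⟨c, fun x hx => ?_⟩
  exact (step_mono D.hp (fun j => (D.pos m j).le) hu0 hc.le (fun j => by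
      calc ‖x.seq j‖ * u j ≤ ‖x.seq j‖ * (c * D.v m j) :=
            mul_le_mul_of_nonneg_left (h j) (norm_nonneg _)
        _ = _ := by ring) hx).2

lemma uSemi_cont (u : ℕ → ℝ) (hu0 : ∀ j, 0 ≤ u j) (hu : ∀ m, ∃ c : ℝ, 0 < c ∧
    ∀ j, u j ≤ c * D.v m j) : Continuous (uSemi (𝕜 := 𝕜) u hu0 hu) :=
  (withSeminorms 𝕜 D).continuous_seminorm ⟨uSemi u hu0 hu, uSemi_adm u hu0 hu⟩

/-- A continuous seminorm is bounded by a multiple of the norm on every step. -/
lemma bound_of_cont (Q : Seminorm 𝕜 (KSpace 𝕜 D)) (hQ : Continuous Q) (m : ℕ) :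
    ∃ C : ℝ, 0 ≤ C ∧ ∀ x : KSpace 𝕜 D, StepMem D.p (D.v m) x.seq →
      Q x ≤ C * stepNorm D.p (D.v m) x.seq := by
  classical
  obtain ⟨s, C, -, hC⟩ := Seminorm.bound_of_continuous (withSeminorms 𝕜 D) Q hQ
  have h1 : ∀ P : Adm 𝕜 D, ∃ C : ℝ, 0 ≤ C ∧ ∀ x : KSpace 𝕜 D, StepMem D.p (D.v m) x.seq →
      P.1 x ≤ C * stepNorm D.p (D.v m) x.seq := by
    intro P
    obtain ⟨C, hC⟩ := P.2 m
    refine ⟨max C 0, le_max_right _ _, fun x hx => (hC x hx).trans ?_⟩
    exact mul_le_mul_of_nonneg_right (le_max_left _ _)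
      (step_nonneg D.hp (fun j => (D.pos m j).le) hx)
  choose c hc0 hc using h1
  refine ⟨C * ∑ P ∈ s, c P, mul_nonneg C.2 (Finset.sum_nonneg fun P _ => hc0 P),
    fun x hx => ?_⟩
  have h2 : Q x ≤ C * (s.sup (admFamily 𝕜 D)) x := hC x
  have h3 : (s.sup (admFamily 𝕜 D)) x ≤ (∑ P ∈ s, admFamily 𝕜 D P) x :=
    Seminorm.finset_sup_le_sum _ _ x
  have h4 : (∑ P ∈ s, admFamily 𝕜 D P) x ≤ (∑ P ∈ s, c P) * stepNorm D.p (D.v m) x.seq := by
    rw [Finset.sum_mul]
    have h5 : ∀ t : Finset (Adm 𝕜 D),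
        (∑ P ∈ t, admFamily 𝕜 D P) x = ∑ P ∈ t, admFamily 𝕜 D P x := by
      intro t
      induction t using Finset.induction_on with
      | empty => simp
      | insert a t ha ih =>
        rw [Finset.sum_insert ha, Finset.sum_insert ha, add_apply, ih]
    rw [h5]
    exact Finset.sum_le_sum fun P _ => hc P x hx
  calc Q x ≤ C * (s.sup (admFamily 𝕜 D)) x := h2
    _ ≤ C * ((∑ P ∈ s, c P) * stepNorm D.p (D.v m) x.seq) :=
        mul_le_mul_of_nonneg_left (h3.trans h4) C.2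
    _ = _ := by ring

/-- Convergence in a step implies convergence in the inductive limit. -/
lemma tendsto_of_step {m : ℕ} {z : ℕ → KSpace 𝕜 D} {y : KSpace 𝕜 D}
    (hz : ∀ i, StepMem D.p (D.v m) (z i - y).seq)
    (h : Tendsto (fun i => stepNorm D.p (D.v m) (z i - y).seq) atTop (𝓝 0)) :
    Tendsto z atTop (𝓝 y) := by
  rw [(withSeminorms 𝕜 D).tendsto_nhds]
  intro P ε hε
  obtain ⟨C, hC⟩ := P.2 m
  have h1 : Tendsto (fun i => C * stepNorm D.p (D.v m) (z i - y).seq) atTop (𝓝 0) := by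
    simpa using h.const_mul C
  filter_upwards [h1.eventually (gt_mem_nhds hε)] with i hi
  exact (hC _ (hz i)).trans_lt hi

end semi

/-! ## Weights defined by infima -/

lemma exists_small (s : Finset ℕ) (g : ℕ → ℝ) (hg : ∀ j, 0 < g j) :
    ∃ ε : ℝ, 0 < ε ∧ ε ≤ 1 ∧ ∀ j ∈ s, ε ≤ g j := by
  classical
  induction s using Finset.induction_on with
  | empty => exact ⟨1, one_pos, le_rfl, fun j hj => absurd hj (Finset.notMem_empty j)⟩
  | insert a s ha ih =>
    obtain ⟨ε, h0, h1, h2⟩ := ih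
    refine ⟨min ε (g a), lt_min h0 (hg a), (min_le_left _ _).trans h1, fun j hj => ?_⟩
    rcases Finset.mem_insert.1 hj with rfl | hj
    · exact min_le_right _ _
    · exact (min_le_left _ _).trans (h2 j hj)

/-- For positive weights `W k`, decreasing in `k`, and finite sets `A l` there is a weight `u` which
is dominated by all `W k` up to constants and is at least `W l` on `A l`. -/
lemma exists_weight (W : ℕ → ℕ → ℝ) (hpos : ∀ k j, 0 < W k j)
    (hanti : ∀ j, Antitone fun k => W k j) (A : ℕ → Finset ℕ) :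
    ∃ u : ℕ → ℝ, (∀ j, 0 ≤ u j) ∧ (∀ k, ∃ c : ℝ, 0 < c ∧ ∀ j, u j ≤ c * W k j) ∧
      ∀ l, ∀ j ∈ A l, W l j ≤ u j := by
  have h1 : ∀ k, ∃ ε : ℝ, 0 < ε ∧ ε ≤ 1 ∧ ∀ l, l < k → ∀ j ∈ A l, ε ≤ W k j / W l j := by
    intro k
    have h2 : ∀ l, ∃ ε : ℝ, 0 < ε ∧ ε ≤ 1 ∧ ∀ j ∈ A l, ε ≤ W k j / W l j := fun l =>
      exists_small (A l) (fun j => W k j / W l j) fun j => div_pos (hpos k j) (hpos l j)
    choose e he0 he1 he2 using h2
    obtain ⟨ε, h3, h4, h5⟩ := exists_small (Finset.range k) e he0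
    exact ⟨ε, h3, h4, fun l hl j hj => (h5 l (Finset.mem_range.2 hl)).trans (he2 l j hj)⟩
  choose ε h0 h1 h2 using h1
  have hbd : ∀ j, BddBelow (Set.range fun k => W k j / ε k) := fun j =>
    ⟨0, by rintro _ ⟨k, rfl⟩; exact (div_pos (hpos k j) (h0 k)).le⟩
  refine ⟨fun j => ⨅ k, W k j / ε k, fun j => le_ciInf fun k => (div_pos (hpos k j) (h0 k)).le,
    fun k => ⟨(ε k)⁻¹, inv_pos.2 (h0 k), fun j => (ciInf_le (hbd j) k).trans (by
      rw [div_eq_inv_mul])⟩, fun l j hj => le_ciInf fun k => ?_⟩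
  rcases le_or_gt k l with hkl | hkl
  · calc W l j ≤ W k j := hanti j hkl
      _ ≤ W k j / ε k := le_div_self (hpos k j).le (h0 k) (h1 k)
  · rw [le_div_iff₀ (h0 k)]
    have := h2 k l hkl j hj
    rw [le_div_iff₀ (hpos l j)] at this
    linarith

/-! ## Step A: nuclearity -/

section nuclear

variable {𝕜 : Type u} [RCLike 𝕜] {D : Kothe}

lemma finsupp_mem (z : ℕ → 𝕜) (J : Finset ℕ) (hz : ∀ j, j ∉ J → z j = 0) (w : ℕ → ℝ)
    (hw : ∀ j, 0 ≤ w j) : StepMem D.p w z :=
  (sMem_of_summable D.hp (fun j => mul_nonneg (norm_nonneg _) (hw j))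
    (summable_of_ne_finset_zero (s := J) fun j hj => by rw [hz j hj, norm_zero, zero_mul])).1

/-- The unit vectors. -/
def unit (j : ℕ) : KSpace 𝕜 D :=
  KSpace.mk (fun i => if i = j then 1 else 0) ⟨0, finsupp_mem _ {j} (fun i hi => by
    rw [if_neg (by simpa using hi)]) _ fun i => (D.pos 0 i).le⟩

/-- The vector with the coordinates `c j`, `j ∈ J`. -/
def fvec (J : Finset ℕ) (c : ℕ → 𝕜) : KSpace 𝕜 D :=
  KSpace.mk (fun i => if i ∈ J then c i else 0) ⟨0, finsupp_mem _ J (fun i hi => by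
    rw [if_neg hi]) _ fun i => (D.pos 0 i).le⟩

lemma seq_sum {ι : Type*} (s : Finset ι) (g : ι → KSpace 𝕜 D) (j : ℕ) :
    (∑ i ∈ s, g i).seq j = ∑ i ∈ s, (g i).seq j := by
  classical
  induction s using Finset.induction_on with
  | empty => simp
  | insert a t ha ih => rw [Finset.sum_insert ha, Finset.sum_insert ha, KSpace.seq_add,
      Pi.add_apply, ih]

lemma fvec_eq (J : Finset ℕ) (c : ℕ → 𝕜) :
    (fvec J c : KSpace 𝕜 D) = ∑ j ∈ J, c j • unit j := by
  apply KSpace.ext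
  funext i
  rw [seq_sum]
  simp only [fvec, unit, KSpace.seq_mk, KSpace.seq_smul, Pi.smul_apply, smul_eq_mul, mul_ite,
    mul_one, mul_zero, Finset.sum_ite_eq]

/-- The nuclearity estimate. -/
lemma nuclear_bound (hN : IsNuclear 𝕜 (KSpace 𝕜 D)) (u : ℕ → ℝ) (hu0 : ∀ j, 0 ≤ u j)
    (hu : ∀ m, ∃ c : ℝ, 0 < c ∧ ∀ j, u j ≤ c * D.v m j) (m : ℕ) :
    ∃ K : ℝ, ∀ J : Finset ℕ, ∑ j ∈ J, u j / D.v m j ≤ K := by
  obtain ⟨Q, hQc, F, iF1, iF2, π, -, hd, hπ, lam, f, y, hlam, hf, hy, hsum⟩ :=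
    hN (uSemi u hu0 hu) (uSemi_cont u hu0 hu)
  obtain ⟨C, hC0, hC⟩ := bound_of_cont Q hQc m
  refine ⟨1 + (∑' i, ‖lam i‖) * (2 * C), fun J => ?_⟩
  have hv : ∀ j, 0 < D.v m j := D.pos m
  -- the error
  set ε : ℝ := (1 + ∑ j ∈ J, 1 / D.v m j)⁻¹ with hε
  have hden : 0 < 1 + ∑ j ∈ J, 1 / D.v m j := by
    have : 0 ≤ ∑ j ∈ J, 1 / D.v m j := Finset.sum_nonneg fun j _ => (div_pos one_pos (hv j)).le
    linarith
  have hε0 : 0 < ε := inv_pos.2 hden
  -- truncation
  have h1 : ∀ᶠ N in atTop, ∀ j ∈ J,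
      ‖∑ i ∈ Finset.range N, (lam i * f i (unit j)) • y i - π (unit j)‖ < ε / 2 := by
    rw [eventually_all_finset]
    intro j _
    have h2 := ((hsum (unit j)).tendsto_sum_nat.sub_const (π (unit j))).norm
    rw [sub_self, norm_zero] at h2
    exact h2.eventually (gt_mem_nhds (half_pos hε0))
  obtain ⟨N, hN'⟩ := h1.exists
  set M : ℝ := 1 + ∑ j ∈ J, ∑ i ∈ Finset.range N, ‖lam i * f i (unit j)‖ with hM
  have hM1 : 1 ≤ M := by
    have : 0 ≤ ∑ j ∈ J, ∑ i ∈ Finset.range N, ‖lam i * f i (unit j)‖ :=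
      Finset.sum_nonneg fun j _ => Finset.sum_nonneg fun i _ => norm_nonneg _
    linarith
  have hM0 : 0 < M := by linarith
  have hε1 : ε ≤ 1 := by
    rw [hε]
    apply inv_le_one_of_one_le₀
    have : 0 ≤ ∑ j ∈ J, 1 / D.v m j := Finset.sum_nonneg fun j _ => (div_pos one_pos (hv j)).le
    linarith
  have h2 : ∀ i, ∃ z : KSpace 𝕜 D, ‖y i - π z‖ < ε / (2 * M) := by
    intro i
    obtain ⟨z, hz⟩ := hd.exists_dist_lt (y i) (show 0 < ε / (2 * M) by positivity)
    exact ⟨z, by rwa [dist_eq_norm] at hz⟩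
  choose z hz using h2
  have hδ1 : ε / (2 * M) ≤ 1 := by
    rw [div_le_one (by positivity)]
    linarith
  have hPz : ∀ i, uSemi u hu0 hu (z i) ≤ 2 := by
    intro i
    rw [← hπ]
    have h3 : ‖π (z i)‖ ≤ ‖y i‖ + ‖y i - π (z i)‖ := by
      have := norm_sub_le (y i) (y i - π (z i))
      rwa [sub_sub_cancel] at this
    have := hy i
    have := hz i
    linarith
  -- the coordinates
  have h4 : ∀ j ∈ J, u j ≤ ε + ∑ i ∈ Finset.range N,
      ‖lam i‖ * (‖f i (unit j)‖ * (‖(z i).seq j‖ * u j)) := by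
    intro j hj
    set s : KSpace 𝕜 D := ∑ i ∈ Finset.range N, (lam i * f i (unit j)) • z i with hs
    have h5 : uSemi u hu0 hu (unit j - s) ≤ ε := by
      rw [← hπ]
      have h6 : π (unit j - s) = (∑ i ∈ Finset.range N, (lam i * f i (unit j)) • (y i - π (z i)))
          - (∑ i ∈ Finset.range N, (lam i * f i (unit j)) • y i - π (unit j)) := by
        rw [map_sub, hs, map_sum]
        simp only [map_smul, smul_sub, Finset.sum_sub_distrib]
        abel
      rw [h6]
      have h7 : ‖∑ i ∈ Finset.range N, (lam i * f i (unit j)) • (y i - π (z i))‖ ≤ ε / 2 := by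
        calc _ ≤ ∑ i ∈ Finset.range N, ‖(lam i * f i (unit j)) • (y i - π (z i))‖ :=
              norm_sum_le _ _
          _ ≤ ∑ i ∈ Finset.range N, ‖lam i * f i (unit j)‖ * (ε / (2 * M)) := by
              refine Finset.sum_le_sum fun i _ => ?_
              rw [norm_smul]
              exact mul_le_mul_of_nonneg_left (hz i).le (norm_nonneg _)
          _ = (∑ i ∈ Finset.range N, ‖lam i * f i (unit j)‖) * (ε / (2 * M)) := by
              rw [Finset.sum_mul]
          _ ≤ M * (ε / (2 * M)) := by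
              refine mul_le_mul_of_nonneg_right ?_ (by positivity)
              have : ∑ i ∈ Finset.range N, ‖lam i * f i (unit j)‖ ≤
                  ∑ j ∈ J, ∑ i ∈ Finset.range N, ‖lam i * f i (unit j)‖ :=
                Finset.single_le_sum
                  (f := fun j => ∑ i ∈ Finset.range N, ‖lam i * f i (unit j)‖)
                  (fun j _ => Finset.sum_nonneg fun i _ => norm_nonneg _) hj
              linarith
          _ = ε / 2 := by field_simp
      have h8 := hN' j hj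
      have h9 := norm_sub_le (∑ i ∈ Finset.range N, (lam i * f i (unit j)) • (y i - π (z i)))
        (∑ i ∈ Finset.range N, (lam i * f i (unit j)) • y i - π (unit j))
      linarith
    have h6 : ‖(unit j - s).seq j‖ * u j ≤ ε :=
      (le_step D.hp hu0 (step_of_le hu0 hu _) j).trans h5
    have h7 : (unit j - s).seq j = 1 - ∑ i ∈ Finset.range N,
        (lam i * f i (unit j)) * (z i).seq j := by
      rw [KSpace.seq_sub, Pi.sub_apply, hs, seq_sum]
      simp [unit]
    have h8 : 1 ≤ ‖(unit j - s).seq j‖ + ‖∑ i ∈ Finset.range N,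
        (lam i * f i (unit j)) * (z i).seq j‖ := by
      rw [h7]
      have := norm_add_le (1 - ∑ i ∈ Finset.range N, (lam i * f i (unit j)) * (z i).seq j)
        (∑ i ∈ Finset.range N, (lam i * f i (unit j)) * (z i).seq j)
      rwa [sub_add_cancel, norm_one] at this
    have h9 : ‖∑ i ∈ Finset.range N, (lam i * f i (unit j)) * (z i).seq j‖ ≤
        ∑ i ∈ Finset.range N, ‖lam i‖ * (‖f i (unit j)‖ * ‖(z i).seq j‖) := by
      refine (norm_sum_le _ _).trans (le_of_eq (Finset.sum_congr rfl fun i _ => ?_))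
      rw [norm_mul, norm_mul, mul_assoc]
    have h10 : u j ≤ (‖(unit j - s).seq j‖ + ‖∑ i ∈ Finset.range N,
        (lam i * f i (unit j)) * (z i).seq j‖) * u j := by
      have := mul_le_mul_of_nonneg_right h8 (hu0 j)
      rwa [one_mul] at this
    calc u j ≤ _ := h10
      _ = ‖(unit j - s).seq j‖ * u j + ‖∑ i ∈ Finset.range N,
        (lam i * f i (unit j)) * (z i).seq j‖ * u j := by ring
      _ ≤ ε + (∑ i ∈ Finset.range N, ‖lam i‖ * (‖f i (unit j)‖ * ‖(z i).seq j‖)) * u j :=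
          add_le_add h6 (mul_le_mul_of_nonneg_right h9 (hu0 j))
      _ = _ := by
          rw [Finset.sum_mul]
          congr 1
          exact Finset.sum_congr rfl fun i _ => by ring
  -- the functionals
  have h5 : ∀ i, ∑ j ∈ J, ‖f i (unit j)‖ * (‖(z i).seq j‖ * u j) / D.v m j ≤ 2 * C := by
    intro i
    have h6 : ∀ a : 𝕜, ∃ θ : 𝕜, ‖θ‖ ≤ 1 ∧ θ * a = (‖a‖ : 𝕜) := by
      intro a
      rcases eq_or_ne a 0 with rfl | ha
      · exact ⟨0, by simp, by simp⟩
      · refine ⟨(‖a‖ : 𝕜) * a⁻¹, ?_, by rw [mul_assoc, inv_mul_cancel₀ ha, mul_one]⟩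
        rw [norm_mul, norm_inv, RCLike.norm_ofReal, abs_norm,
          mul_inv_cancel₀ (norm_ne_zero_iff.2 ha)]
    choose θ hθ1 hθ2 using h6
    set c : ℕ → 𝕜 := fun j => θ (f i (unit j)) * ((‖(z i).seq j‖ * u j / D.v m j : ℝ) : 𝕜)
      with hc
    have h7 : f i (fvec J c) =
        ((∑ j ∈ J, ‖f i (unit j)‖ * (‖(z i).seq j‖ * u j) / D.v m j : ℝ) : 𝕜) := by
      rw [fvec_eq, map_sum, RCLike.ofReal_sum]
      refine Finset.sum_congr rfl fun j _ => ?_
      rw [map_smul, smul_eq_mul, hc]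
      have := hθ2 (f i (unit j))
      calc θ (f i (unit j)) * ((‖(z i).seq j‖ * u j / D.v m j : ℝ) : 𝕜) * f i (unit j)
          = θ (f i (unit j)) * f i (unit j) * ((‖(z i).seq j‖ * u j / D.v m j : ℝ) : 𝕜) := by
            ring
        _ = _ := by rw [this]; push_cast; ring
    have h8 : 0 ≤ ∑ j ∈ J, ‖f i (unit j)‖ * (‖(z i).seq j‖ * u j) / D.v m j :=
      Finset.sum_nonneg fun j _ => div_nonneg (mul_nonneg (norm_nonneg _)
        (mul_nonneg (norm_nonneg _) (hu0 j))) (hv j).le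
    have h9 : ∑ j ∈ J, ‖f i (unit j)‖ * (‖(z i).seq j‖ * u j) / D.v m j = ‖f i (fvec J c)‖ := by
      rw [h7, RCLike.norm_ofReal, abs_of_nonneg h8]
    rw [h9]
    have h10 : StepMem D.p (D.v m) (fvec J c : KSpace 𝕜 D).seq :=
      finsupp_mem _ J (fun i hi => by simp [fvec, hi]) _ fun j => (hv j).le
    have h11 : stepNorm D.p (D.v m) (fvec J c : KSpace 𝕜 D).seq ≤
        1 * stepNorm D.p u (z i).seq := by
      refine (step_mono D.hp hu0 (fun j => (hv j).le) zero_le_one (fun j => ?_)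
        (step_of_le hu0 hu (z i))).2
      rw [one_mul]
      have h12 : 0 ≤ ‖(z i).seq j‖ * u j := mul_nonneg (norm_nonneg _) (hu0 j)
      simp only [fvec, KSpace.seq_mk]
      split_ifs with hj
      · rw [hc]
        simp only
        rw [norm_mul, RCLike.norm_ofReal, abs_of_nonneg (div_nonneg h12 (hv j).le)]
        calc ‖θ (f i (unit j))‖ * (‖(z i).seq j‖ * u j / D.v m j) * D.v m j
            = ‖θ (f i (unit j))‖ * (‖(z i).seq j‖ * u j) := by
              rw [mul_assoc, div_mul_cancel₀ _ (hv j).ne']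
          _ ≤ 1 * (‖(z i).seq j‖ * u j) := mul_le_mul_of_nonneg_right (hθ1 _) h12
          _ = _ := one_mul _
      · rw [norm_zero, zero_mul]; exact h12
    rw [one_mul] at h11
    have h12 := hPz i
    rw [uSemi_apply] at h12
    calc ‖f i (fvec J c)‖ ≤ Q (fvec J c) := hf i _
      _ ≤ C * stepNorm D.p (D.v m) (fvec J c : KSpace 𝕜 D).seq := hC _ h10
      _ ≤ C * 2 := mul_le_mul_of_nonneg_left (h11.trans h12) hC0
      _ = _ := mul_comm _ _
  calc ∑ j ∈ J, u j / D.v m j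
      ≤ ∑ j ∈ J, (ε + ∑ i ∈ Finset.range N,
          ‖lam i‖ * (‖f i (unit j)‖ * (‖(z i).seq j‖ * u j))) / D.v m j :=
        Finset.sum_le_sum fun j hj => div_le_div_of_nonneg_right (h4 j hj) (hv j).le
    _ = ε * (∑ j ∈ J, 1 / D.v m j) + ∑ i ∈ Finset.range N, ‖lam i‖ *
          ∑ j ∈ J, ‖f i (unit j)‖ * (‖(z i).seq j‖ * u j) / D.v m j := by
        rw [Finset.mul_sum]
        simp_rw [Finset.mul_sum]
        rw [Finset.sum_comm, ← Finset.sum_add_distrib]
        refine Finset.sum_congr rfl fun j _ => ?_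
        rw [add_div, Finset.sum_div]
        congr 1
        · ring
        · exact Finset.sum_congr rfl fun i _ => by ring
    _ ≤ 1 + (∑' i, ‖lam i‖) * (2 * C) := by
        refine add_le_add ?_ ?_
        · rw [hε, inv_mul_le_iff₀ hden]
          linarith
        · calc _ ≤ ∑ i ∈ Finset.range N, ‖lam i‖ * (2 * C) :=
                Finset.sum_le_sum fun i _ => mul_le_mul_of_nonneg_left (h5 i) (norm_nonneg _)
            _ = (∑ i ∈ Finset.range N, ‖lam i‖) * (2 * C) := by rw [Finset.sum_mul]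
            _ ≤ _ := mul_le_mul_of_nonneg_right (hlam.sum_le_tsum _ fun i _ => norm_nonneg _)
                (by positivity)

/-- Step A: in a nuclear coechelon space the quotients of some weights tend to zero. -/
lemma quot_tendsto (hN : IsNuclear 𝕜 (KSpace 𝕜 D)) (m : ℕ) :
    ∃ n, m ≤ n ∧ Tendsto (fun j => D.v n j / D.v m j) atTop (𝓝 0) := by
  by_contra hcon
  push Not at hcon
  have hW : ∀ j, Antitone fun k => D.v (m + k) j := fun j k l hkl =>
    D.antitone j (by omega)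
  have hr0 : ∀ k j, 0 ≤ D.v (m + k) j / D.v m j := fun k j =>
    (div_pos (D.pos _ j) (D.pos _ j)).le
  have h1 : ∀ l : ℕ, ∃ A : Finset ℕ, (l : ℝ) ≤ ∑ j ∈ A, D.v (m + l) j / D.v m j := by
    intro l
    by_contra h2
    push Not at h2
    have h3 : Summable fun j => D.v (m + l) j / D.v m j :=
      summable_of_sum_le (c := l) (hr0 l) fun s => (h2 s).le
    exact hcon (m + l) (Nat.le_add_right _ _) h3.tendsto_atTop_zero
  choose A hA using h1
  obtain ⟨u, hu0, hu1, hu2⟩ := exists_weight (fun k => D.v (m + k)) (fun k j => D.pos _ j) hW A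
  obtain ⟨K, hK⟩ := nuclear_bound hN u hu0 (fun k => by
    obtain ⟨c, hc, h⟩ := hu1 k
    exact ⟨c, hc, fun j => (h j).trans (mul_le_mul_of_nonneg_left
      (D.antitone j (Nat.le_add_left _ _)) hc.le)⟩) m
  obtain ⟨l, hl⟩ := exists_nat_gt K
  have h2 : ∑ j ∈ A l, D.v (m + l) j / D.v m j ≤ ∑ j ∈ A l, u j / D.v m j :=
    Finset.sum_le_sum fun j hj => div_le_div_of_nonneg_right (hu2 l j hj) (D.pos m j).le
  linarith [hA l, hK (A l)]

end nuclear

/-! ## Step B: some weight tends to zero -/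

section ergodic

variable {𝕜 : Type u} [RCLike 𝕜] {D : Kothe}

lemma iterate_seq (hB : ShiftCond D) (n : ℕ) (x : KSpace 𝕜 D) (j : ℕ) :
    ((bshift 𝕜 hB)^[n] x).seq j = x.seq (j + n) := by
  induction n generalizing x with
  | zero => rfl
  | succ n ih =>
    rw [Function.iterate_succ_apply, ih]
    change x.seq (j + n + 1) = _
    rfl

lemma shift_iter (hB : ShiftCond D) (L m : ℕ) :
    ∃ n, m ≤ n ∧ ∃ C : ℝ, 0 < C ∧ ∀ j i, i ≤ L → D.v n j ≤ C * D.v m (j + i) := by
  induction L with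
  | zero =>
    refine ⟨m, le_rfl, 1, one_pos, fun j i hi => ?_⟩
    obtain rfl : i = 0 := by omega
    rw [one_mul, add_zero]
  | succ L ih =>
    obtain ⟨n, hn, C, hC, h⟩ := ih
    obtain ⟨n', hn', C', hC', h'⟩ := hB n
    refine ⟨n', hn.trans hn', max 1 (C' * C), lt_max_of_lt_left one_pos, fun j i hi => ?_⟩
    rcases i with _ | i
    · calc D.v n' j ≤ D.v m j := D.antitone j (hn.trans hn')
        _ = 1 * D.v m (j + 0) := by rw [one_mul, add_zero]
        _ ≤ _ := mul_le_mul_of_nonneg_right (le_max_left _ _) (D.pos m _).le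
    · calc D.v n' j ≤ C' * D.v n (j + 1) := h' j
        _ ≤ C' * (C * D.v m (j + 1 + i)) :=
            mul_le_mul_of_nonneg_left (h (j + 1) i (by omega)) hC'.le
        _ = C' * C * D.v m (j + (i + 1)) := by rw [mul_assoc, add_assoc, add_comm 1 i]
        _ ≤ _ := mul_le_mul_of_nonneg_right (le_max_right _ _) (D.pos m _).le

lemma window (hB : ShiftCond D) (hN : IsNuclear 𝕜 (KSpace 𝕜 D))
    (h : ∀ m, ¬ Tendsto (D.v m) atTop (𝓝 0)) (L : ℕ) :
    ∃ j, ∀ i, i ≤ L → 1 ≤ D.v L (j + i) := by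
  obtain ⟨n0, -, C, hC, h0⟩ := shift_iter hB L L
  obtain ⟨n1, -, h1⟩ := quot_tendsto hN n0
  have h2 : ∃ δ : ℝ, 0 < δ ∧ ∀ N, ∃ j, N ≤ j ∧ δ ≤ D.v n1 j := by
    by_contra hcon
    push Not at hcon
    apply h n1
    rw [Metric.tendsto_atTop]
    intro ε hε
    obtain ⟨N, hN⟩ := hcon ε hε
    refine ⟨N, fun j hj => ?_⟩
    rw [Real.dist_eq, sub_zero, abs_of_pos (D.pos n1 j)]
    exact hN j hj
  obtain ⟨δ, hδ, h2⟩ := h2
  obtain ⟨N, hN⟩ := (h1.eventually (gt_mem_nhds (div_pos hδ hC))).exists_forall_of_atTop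
  obtain ⟨j, hj, hj'⟩ := h2 N
  refine ⟨j, fun i hi => ?_⟩
  have h3 := hN j hj
  rw [div_lt_div_iff₀ (D.pos n0 j) hC] at h3
  have h4 : C ≤ D.v n0 j := by
    by_contra hcon
    push Not at hcon
    have h5 : δ * D.v n0 j < δ * C := mul_lt_mul_of_pos_left hcon hδ
    have h6 : δ * C ≤ D.v n1 j * C := mul_le_mul_of_nonneg_right hj' hC.le
    linarith
  have h5 := h4.trans (h0 j i hi)
  by_contra hcon
  push Not at hcon
  have := mul_lt_mul_of_pos_left hcon hC
  linarith

lemma weights_tendsto (hB : ShiftCond D) (hN : IsNuclear 𝕜 (KSpace 𝕜 D))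
    (hE : TopErgodic (bshift 𝕜 hB)) : ∃ m, Tendsto (D.v m) atTop (𝓝 0) := by
  by_contra hcon
  push Not at hcon
  choose w hw using window hB hN hcon
  obtain ⟨u, hu0, hu1, hu2⟩ := exists_weight D.v D.pos
    (fun j => fun k l hkl => D.antitone j hkl) (fun L => Finset.Icc (w L) (w L + L))
  set w0 : ℕ → ℝ := fun j => if j = 0 then 1 else 0 with hw0
  have hw00 : ∀ j, 0 ≤ w0 j := fun j => by
    simp only [hw0]; split_ifs <;> norm_num
  have hw01 : ∀ m, ∃ c : ℝ, 0 < c ∧ ∀ j, w0 j ≤ c * D.v m j := fun m =>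
    ⟨(D.v m 0)⁻¹, inv_pos.2 (D.pos m 0), fun j => by
      simp only [hw0]
      split_ifs with hj
      · rw [hj, inv_mul_cancel₀ (D.pos m 0).ne']
      · exact mul_nonneg (inv_pos.2 (D.pos m 0)).le (D.pos m j).le⟩
  set U : Set (KSpace 𝕜 D) := {x | uSemi u hu0 hu1 x < 1} with hU
  set W : Set (KSpace 𝕜 D) := {x | 1 < uSemi w0 hw00 hw01 x} with hW
  have hUo : IsOpen U := isOpen_lt (uSemi_cont u hu0 hu1) continuous_const
  have hWo : IsOpen W := isOpen_lt continuous_const (uSemi_cont w0 hw00 hw01)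
  have hUn : U.Nonempty := ⟨0, by
    simp only [hU, Set.mem_ofPred_eq, map_zero]
    exact one_pos⟩
  have hWn : W.Nonempty := ⟨(2 : 𝕜) • unit 0, by
    simp only [hW, Set.mem_ofPred_eq, map_smul_eq_mul]
    have h1 := le_step D.hp hw00 (step_of_le hw00 hw01 (unit 0 : KSpace 𝕜 D)) 0
    simp only [unit, KSpace.seq_mk, if_true, norm_one, hw0, mul_one] at h1
    have h2 : (1 : ℝ) ≤ uSemi w0 hw00 hw01 (unit 0 : KSpace 𝕜 D) := h1
    have h3 : ‖(2 : 𝕜)‖ = 2 := by
      rw [RCLike.norm_ofNat]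
    rw [h3]
    linarith⟩
  obtain ⟨q, hq⟩ := hE U W hUo hWo hUn hWn
  obtain ⟨k, hk1, hk2, hk3, z, ⟨x, hx, rfl⟩, hz⟩ := hq (w (q + 1) + 1) (by omega)
  have h1 : ‖x.seq k‖ * u k < 1 :=
    (le_step D.hp hu0 (step_of_le hu0 hu1 x) k).trans_lt hx
  have h2 : 1 < ‖x.seq k‖ := by
    have h3 : 1 < stepNorm D.p w0 ((bshift 𝕜 hB)^[k] x).seq := hz
    have h4 : HasSum (fun j => ‖((bshift 𝕜 hB)^[k] x).seq j‖ * w0 j) ‖x.seq k‖ := by
      have := hasSum_single (f := fun j => ‖((bshift 𝕜 hB)^[k] x).seq j‖ * w0 j) 0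
        (fun j hj => by simp [hw0, hj])
      rw [iterate_seq] at this
      simpa [hw0] using this
    have h5 := (sMem_of_summable D.hp (fun j => mul_nonneg (norm_nonneg _) (hw00 j))
      h4.summable).2
    rw [h4.tsum_eq] at h5
    exact h3.trans_le h5
  have hk : k ∈ Finset.Icc (w (q + 1)) (w (q + 1) + (q + 1)) := Finset.mem_Icc.2 ⟨by omega,
    by omega⟩
  have h3 : 1 ≤ u k := by
    have h4 := hw (q + 1) (k - w (q + 1)) (by omega)
    rw [show w (q + 1) + (k - w (q + 1)) = k by omega] at h4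
    exact h4.trans (hu2 (q + 1) k hk)
  nlinarith

end ergodic

/-! ## Step C: sequential hypercyclicity -/

section hyper

variable {𝕜 : Type u} [RCLike 𝕜] {D : Kothe}

/-- The finitely supported sequence with entries in a countable dense set defined by a list. -/
noncomputable def lseq (l : List ℕ) (j : ℕ) : 𝕜 :=
  if j < l.length then TopologicalSpace.denseSeq 𝕜 (l.getD j 0) else 0

lemma lseq_of_le {l : List ℕ} {j : ℕ} (h : l.length ≤ j) : (lseq l j : 𝕜) = 0 :=
  if_neg (not_lt.2 h)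

lemma lseq_mem (l : List ℕ) (w : ℕ → ℝ) (hw : ∀ j, 0 ≤ w j) :
    StepMem D.p w (lseq l : ℕ → 𝕜) :=
  finsupp_mem _ (Finset.range l.length) (fun j hj => lseq_of_le (by simpa using hj)) w hw

lemma lseq_dense (w : ℕ → ℝ) (hw : ∀ j, 0 ≤ w j) (y : ℕ → 𝕜) (hy : StepMem D.p w y)
    (ε : ℝ) (hε : 0 < ε) : ∃ l : List ℕ, stepNorm D.p w ((lseq l : ℕ → 𝕜) - y) ≤ ε := by
  have hy0 : ∀ j, 0 ≤ ‖y j‖ * w j := fun j => mul_nonneg (norm_nonneg _) (hw j)
  obtain ⟨N, hN⟩ := tail_small D.hp hy0 hy (half_pos hε)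
  have h1 : ∀ j, ∃ c : ℕ, ‖TopologicalSpace.denseSeq 𝕜 c - y j‖ * w j ≤ ε / (2 * (N + 1)) := by
    intro j
    obtain ⟨c, hc⟩ := (TopologicalSpace.denseRange_denseSeq 𝕜).exists_dist_lt (y j)
      (show 0 < ε / (2 * (N + 1)) / (w j + 1) by
        have := hw j
        positivity)
    refine ⟨c, ?_⟩
    rw [dist_comm, dist_eq_norm, lt_div_iff₀ (by linarith [hw j])] at hc
    refine le_trans ?_ hc.le
    exact mul_le_mul_of_nonneg_left (by linarith) (norm_nonneg _)
  choose c hc using h1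
  refine ⟨(List.range N).map c, ?_⟩
  set a : ℕ → ℝ := fun j => if j < N then ε / (2 * (N + 1)) else 0 with ha
  have ha0 : ∀ j, 0 ≤ a j := fun j => by simp only [ha]; split_ifs <;> positivity
  have has : Summable a := summable_of_ne_finset_zero (s := Finset.range N) fun j hj => by
    simp only [ha]; rw [if_neg (by simpa using hj)]
  have hats : ∑' j, a j ≤ ε / 2 := by
    rw [tsum_eq_sum (s := Finset.range N) fun j hj => by
      simp only [ha]; rw [if_neg (by simpa using hj)]]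
    calc ∑ j ∈ Finset.range N, a j = ∑ j ∈ Finset.range N, ε / (2 * (N + 1)) :=
          Finset.sum_congr rfl fun j hj => by
            simp only [ha]; rw [if_pos (Finset.mem_range.1 hj)]
      _ = N * (ε / (2 * (N + 1))) := by rw [Finset.sum_const, Finset.card_range, nsmul_eq_mul]
      _ ≤ ε / 2 := by
          rw [mul_div_assoc', div_le_div_iff₀ (by positivity) (by positivity)]
          nlinarith [Nat.cast_nonneg (α := ℝ) N]
  obtain ⟨hma, hna⟩ := sMem_of_summable D.hp ha0 has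
  set b : ℕ → ℝ := fun j => if j < N then 0 else ‖y j‖ * w j with hb
  have hb0 : ∀ j, 0 ≤ b j := fun j => by
    simp only [hb]; split_ifs
    · exact le_rfl
    · exact hy0 j
  have hmb : SMem D.p b := (sMem_mono (c := 1) D.hp zero_le_one hy0 hb0 (fun j => by
    simp only [hb, one_mul]; split_ifs
    · exact hy0 j
    · exact le_rfl) hy).1
  obtain ⟨h2, h3⟩ := sMem_add D.hp ha0 hb0 hma hmb
  have h4 := (sMem_mono (b := fun j => ‖((lseq ((List.range N).map c) : ℕ → 𝕜) - y) j‖ * w j)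
    (c := 1) D.hp zero_le_one (fun j => add_nonneg (ha0 j) (hb0 j))
    (fun j => mul_nonneg (norm_nonneg _) (hw j)) (fun j => by
      rw [one_mul, Pi.sub_apply]
      simp only [lseq, List.length_map, List.length_range, ha, hb]
      split_ifs with hj
      · rw [add_zero]
        have : ((List.range N).map c).getD j 0 = c j := by
          rw [List.getD_eq_getElem _ _ (by simpa using hj)]
          simp
        rw [this]
        exact hc j
      · rw [zero_add, zero_sub, norm_neg]) h2).2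
  rw [one_mul] at h4
  have h5 : sNorm D.p b ≤ ε / 2 := hN
  calc stepNorm D.p w ((lseq ((List.range N).map c) : ℕ → 𝕜) - y)
      ≤ sNorm D.p (fun j => a j + b j) := h4
    _ ≤ ε := by linarith

lemma shift_sum_le (h w : ℕ → ℝ) (hh : ∀ i, 0 ≤ h i) (hw : ∀ i, 0 ≤ w i) (s r J : ℕ)
    (hs : ∀ i, s ≤ i → h i = 0) :
    ∑ j ∈ Finset.range J, (if r ≤ j then h (j - r) else 0) * w j ≤
      ∑ i ∈ Finset.range s, h i * w (i + r) := by
  have h0 : ∀ j, 0 ≤ (if r ≤ j then h (j - r) else 0) * w j := fun j =>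
    mul_nonneg (by split_ifs; exacts [hh _, le_rfl]) (hw j)
  calc ∑ j ∈ Finset.range J, (if r ≤ j then h (j - r) else 0) * w j
      ≤ ∑ j ∈ Finset.range (r + (J + s)), (if r ≤ j then h (j - r) else 0) * w j :=
        Finset.sum_le_sum_of_subset_of_nonneg (by
          intro j hj
          simp only [Finset.mem_range] at hj ⊢
          omega) fun j _ _ => h0 j
    _ = ∑ i ∈ Finset.range (J + s), h i * w (i + r) := by
        rw [Finset.sum_range_add, Finset.sum_eq_zero, zero_add]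
        · refine Finset.sum_congr rfl fun i _ => ?_
          rw [if_pos (by omega), show r + i - r = i by omega, add_comm r i]
        · intro j hj
          rw [if_neg (by simpa using hj), zero_mul]
    _ = ∑ i ∈ Finset.range s, h i * w (i + r) := by
        symm
        refine Finset.sum_subset (by intro j hj; simp only [Finset.mem_range] at hj ⊢; omega) ?_
        intro i _ hi
        rw [hs i (by simpa using hi), zero_mul]

lemma half_sum_le (k t : ℕ) :
    ∑ i ∈ Finset.range t, (1 / 2 : ℝ) ^ (k + 1 + i) ≤ (1 / 2 : ℝ) ^ k := by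
  have h1 : ∑ i ∈ Finset.range t, (1 / 2 : ℝ) ^ (k + 1 + i) =
      (1 / 2 : ℝ) ^ k - (1 / 2 : ℝ) ^ (k + t) := by
    induction t with
    | zero => simp
    | succ t ih =>
      rw [Finset.sum_range_succ, ih]
      rw [show k + 1 + t = k + t + 1 by ring, show k + (t + 1) = k + t + 1 by ring, pow_succ]
      ring
  rw [h1]
  have : (0 : ℝ) < (1 / 2 : ℝ) ^ (k + t) := by positivity
  linarith

/-- If some weight tends to zero, the backward shift is sequentially hypercyclic. -/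
lemma seqHyp_of_tendsto (hB : ShiftCond D) (m : ℕ) (hm : Tendsto (D.v m) atTop (𝓝 0)) :
    SeqHypercyclic (bshift 𝕜 hB) := by
  have hw : ∀ j, 0 ≤ D.v m j := fun j => (D.pos m j).le
  set L : ℕ → List ℕ := fun k => ((Encodable.decode k.unpair.1 : Option (List ℕ))).getD [] with hL
  have hR : ∀ k, ∃ R, ∀ r, R ≤ r →
      ∑ i ∈ Finset.range (L k).length, ‖(lseq (L k) i : 𝕜)‖ * D.v m (i + r) ≤ (1 / 2 : ℝ) ^ k := by
    intro k
    have h1 : Tendsto (fun r => ∑ i ∈ Finset.range (L k).length,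
        ‖(lseq (L k) i : 𝕜)‖ * D.v m (i + r)) atTop (𝓝 0) := by
      have : Tendsto (fun r => ∑ i ∈ Finset.range (L k).length,
          ‖(lseq (L k) i : 𝕜)‖ * D.v m (i + r)) atTop
          (𝓝 (∑ i ∈ Finset.range (L k).length, ‖(lseq (L k) i : 𝕜)‖ * 0)) := by
        refine tendsto_finsetSum _ fun i _ => ?_
        refine Tendsto.const_mul _ ?_
        exact hm.comp (tendsto_atTop_mono (fun r => Nat.le_add_left r i) tendsto_id)
      simpa using this
    exact (h1.eventually (ge_mem_nhds (show (0 : ℝ) < (1 / 2 : ℝ) ^ k by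
      positivity))).exists_forall_of_atTop
  choose R hR using hR
  set n : ℕ → ℕ := fun k => ∑ i ∈ Finset.range k, ((L i).length + R (i + 1) + 1) with hn
  have hn0 : n 0 = 0 := rfl
  have hns : ∀ k, n (k + 1) = n k + ((L k).length + R (k + 1) + 1) := fun k =>
    Finset.sum_range_succ _ _
  have hnmono : StrictMono n := strictMono_nat_of_lt_succ fun k => by rw [hns]; omega
  have hnk : ∀ k, k ≤ n k := hnmono.id_le
  set term : ℕ → ℕ → 𝕜 := fun l t => if n l ≤ t then lseq (L l) (t - n l) else 0 with hterm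
  set x : ℕ → 𝕜 := fun t => ∑ l ∈ Finset.range (t + 1), term l t with hx
  -- the sum may be extended
  have hext : ∀ t T, t + 1 ≤ T → x t = ∑ l ∈ Finset.range T, term l t := by
    intro t T hT
    refine Finset.sum_subset (by intro j hj; simp only [Finset.mem_range] at hj ⊢; omega) ?_
    intro l _ hl
    have h1 : t < l := by simpa using hl
    have h2 := hnk l
    simp only [hterm]
    rw [if_neg (by omega)]
  -- the difference
  have hz : ∀ k j T, j + n k + 1 ≤ T → k + 1 ≤ T →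
      x (j + n k) - lseq (L k) j = ∑ l ∈ Finset.Ico (k + 1) T, term l (j + n k) := by
    intro k j T hT hkT
    rw [hext _ T hT, ← Finset.sum_range_add_sum_Ico _ hkT, Finset.sum_range_succ,
      Finset.sum_eq_zero, zero_add]
    · have : term k (j + n k) = lseq (L k) j := by
        simp only [hterm]
        rw [if_pos (Nat.le_add_left _ _), Nat.add_sub_cancel]
      rw [this]
      abel
    · intro l hl
      have hl' : l < k := Finset.mem_range.1 hl
      have h1 : n (l + 1) ≤ n k := hnmono.monotone hl'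
      rw [hns] at h1
      simp only [hterm]
      split_ifs with h2
      · exact lseq_of_le (by omega)
      · rfl
  -- the estimate
  have hest : ∀ k J, ∑ j ∈ Finset.range J, ‖x (j + n k) - lseq (L k) j‖ * D.v m j ≤
      (1 / 2 : ℝ) ^ k := by
    intro k J
    set T := J + n k + k + 1 with hT
    calc ∑ j ∈ Finset.range J, ‖x (j + n k) - lseq (L k) j‖ * D.v m j
        ≤ ∑ j ∈ Finset.range J, ∑ l ∈ Finset.Ico (k + 1) T,
            (if n l - n k ≤ j then ‖(lseq (L l) (j - (n l - n k)) : 𝕜)‖ else 0) * D.v m j := by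
          refine Finset.sum_le_sum fun j hj => ?_
          have hj' : j < J := Finset.mem_range.1 hj
          rw [hz k j T (by omega) (by omega), ← Finset.sum_mul]
          refine mul_le_mul_of_nonneg_right ((norm_sum_le _ _).trans ?_) (hw j)
          refine Finset.sum_le_sum fun l hl => ?_
          have hl' := (Finset.mem_Ico.1 hl).1
          have h1 : n k ≤ n l := hnmono.monotone (by omega)
          simp only [hterm]
          split_ifs with h2 h3 h3
          · rw [show j + n k - n l = j - (n l - n k) by omega]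
          · omega
          · rw [norm_zero]; exact norm_nonneg _
          · rw [norm_zero]
      _ = ∑ l ∈ Finset.Ico (k + 1) T, ∑ j ∈ Finset.range J,
            (if n l - n k ≤ j then ‖(lseq (L l) (j - (n l - n k)) : 𝕜)‖ else 0) * D.v m j :=
          Finset.sum_comm
      _ ≤ ∑ l ∈ Finset.Ico (k + 1) T, (1 / 2 : ℝ) ^ l := by
          refine Finset.sum_le_sum fun l hl => ?_
          have hl' := (Finset.mem_Ico.1 hl).1
          have h1 := shift_sum_le (fun i => ‖(lseq (L l) i : 𝕜)‖) (D.v m)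
            (fun i => norm_nonneg _) hw (L l).length (n l - n k) J
            (fun i hi => by rw [lseq_of_le hi, norm_zero])
          refine h1.trans (hR l _ ?_)
          obtain ⟨l', rfl⟩ : ∃ l', l = l' + 1 := ⟨l - 1, by omega⟩
          have h2 : n k ≤ n l' := hnmono.monotone (by omega)
          rw [hns]
          omega
      _ = ∑ i ∈ Finset.range (T - (k + 1)), (1 / 2 : ℝ) ^ (k + 1 + i) :=
          Finset.sum_Ico_eq_sum_range _ _ _
      _ ≤ _ := half_sum_le _ _
  have hstep : ∀ k, StepMem D.p (D.v m) (fun j => x (j + n k) - lseq (L k) j) ∧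
      stepNorm D.p (D.v m) (fun j => x (j + n k) - lseq (L k) j) ≤ (1 / 2 : ℝ) ^ k := by
    intro k
    have h0 : ∀ j, 0 ≤ ‖x (j + n k) - lseq (L k) j‖ * D.v m j := fun j =>
      mul_nonneg (norm_nonneg _) (hw j)
    have h1 : Summable fun j => ‖x (j + n k) - lseq (L k) j‖ * D.v m j :=
      summable_of_sum_range_le h0 (hest k)
    obtain ⟨h2, h3⟩ := sMem_of_summable D.hp h0 h1
    exact ⟨h2, h3.trans (h1.tsum_le_of_sum_range_le (hest k))⟩
  have hxmem : StepMem D.p (D.v m) x := by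
    have h1 := (step_add D.hp hw (hstep 0).1 (lseq_mem (D := D) (𝕜 := 𝕜) (L 0) _ hw)).1
    have h2 : ((fun j => x (j + n 0) - lseq (L 0) j) + lseq (L 0) : ℕ → 𝕜) = x := by
      funext j
      simp [hn0]
    rwa [h2] at h1
  refine ⟨KSpace.mk x ⟨m, hxmem⟩, fun y => ?_⟩
  obtain ⟨M', hM'⟩ := y.mem
  set M := max m M' with hM
  have hwM : ∀ j, 0 ≤ D.v M j := fun j => (D.pos M j).le
  have hyM : StepMem D.p (D.v M) y.seq :=
    (step_mono (c := 1) D.hp (fun j => (D.pos M' j).le) hwM zero_le_one (fun j => by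
      rw [one_mul]
      exact mul_le_mul_of_nonneg_left (D.antitone j (le_max_right _ _)) (norm_nonneg _)) hM').1
  have hmM : ∀ z : ℕ → 𝕜, StepMem D.p (D.v m) z → StepMem D.p (D.v M) z ∧
      stepNorm D.p (D.v M) z ≤ 1 * stepNorm D.p (D.v m) z := fun z hz =>
    step_mono D.hp hw hwM zero_le_one (fun j => by
      rw [one_mul]
      exact mul_le_mul_of_nonneg_left (D.antitone j (le_max_left _ _)) (norm_nonneg _)) hz
  choose l hl using fun i : ℕ => lseq_dense (D := D) (D.v M) hwM y.seq hyM ((1 / 2 : ℝ) ^ i)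
    (by positivity)
  set κ : ℕ → ℕ := fun i => Nat.pair (Encodable.encode (l i)) i with hκ
  have hLκ : ∀ i, L (κ i) = l i := fun i => by
    simp [hL, hκ, Nat.unpair_pair]
  have hiκ : ∀ i, i ≤ κ i := fun i => Nat.right_le_pair _ _
  refine ⟨fun i => n (κ i), ?_⟩
  have hdiff : ∀ i, ((bshift 𝕜 hB)^[n (κ i)] (KSpace.mk x ⟨m, hxmem⟩) - y).seq =
      (fun j => x (j + n (κ i)) - lseq (L (κ i)) j) + (lseq (l i) - y.seq) := by
    intro i
    funext j
    rw [KSpace.seq_sub, Pi.sub_apply, iterate_seq, Pi.add_apply, Pi.sub_apply, hLκ,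
      KSpace.seq_mk]
    abel
  have hmem : ∀ i, StepMem D.p (D.v M)
      ((bshift 𝕜 hB)^[n (κ i)] (KSpace.mk x ⟨m, hxmem⟩) - y).seq ∧
      stepNorm D.p (D.v M) ((bshift 𝕜 hB)^[n (κ i)] (KSpace.mk x ⟨m, hxmem⟩) - y).seq ≤
        2 * (1 / 2 : ℝ) ^ i := by
    intro i
    rw [hdiff]
    obtain ⟨h1, h2⟩ := hmM _ (hstep (κ i)).1
    have h3 : StepMem D.p (D.v M) ((lseq (l i) : ℕ → 𝕜) - y.seq) := by
      have h4 := (step_smul D.hp hwM (-1 : 𝕜) hyM).1
      have h5 := (step_add D.hp hwM (lseq_mem (D := D) (𝕜 := 𝕜) (l i) _ hwM) h4).1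
      rwa [neg_one_smul, ← sub_eq_add_neg] at h5
    obtain ⟨h6, h7⟩ := step_add D.hp hwM h1 h3
    refine ⟨h6, h7.trans ?_⟩
    have h8 := hl i
    have h9 := (hstep (κ i)).2
    have h10 : (1 / 2 : ℝ) ^ (κ i) ≤ (1 / 2 : ℝ) ^ i :=
      pow_le_pow_of_le_one (by norm_num) (by norm_num) (hiκ i)
    linarith
  refine tendsto_of_step (m := M) (fun i => (hmem i).1) ?_
  refine squeeze_zero (fun i => step_nonneg D.hp hwM (hmem i).1) (fun i => (hmem i).2) ?_
  have := (tendsto_pow_atTop_nhds_zero_of_lt_one (r := (1 / 2 : ℝ)) (by norm_num)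
    (by norm_num)).const_mul 2
  simpa using this

end hyper

/-- Let `p ∈ {0} ∪ [1, ∞)` and let `V` be a decreasing sequence of strictly positive weights such
that the backward shift `B` is continuous on the coechelon space `k_p(V)`, over `ℝ` or `ℂ`.  If
`k_p(V)` is nuclear and `B` is topologically ergodic, then `B` is sequentially hypercyclic. -/
theorem result {𝕜 : Type u} [RCLike 𝕜] (D : Kothe) (hB : ShiftCond D)
    (hN : IsNuclear 𝕜 (KSpace 𝕜 D)) (hE : TopErgodic (bshift 𝕜 hB)) :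
    SeqHypercyclic (bshift 𝕜 hB) := by
  obtain ⟨m, hm⟩ := weights_tendsto hB hN hE
  exact seqHyp_of_tendsto hB m hm

end Pool.Agent.Results.MP_b30f08_an.NuclearErgodic
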